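import Pool.Agent.P8H41.PK.Stm

set_option autoImplicit false

/-!
# Project PK, package PERM: the permutations of a vector close to Gaussian scores are dense in measure
-/

namespace Pool.Agent.P8H55.PK

open Filter Topology MeasureTheory ProbabilityTheory
open scoped InnerProductSpace
open Pool.Agent.P8H41.PK

/-! ### One-dimensional facts -/

theorem int_pow (p : ℕ) (hp : p ≠ 0) : Integrable (fun t : ℝ => |t| ^ p) (gaussianReal 0 1) := by
  have h := (memLp_id_gaussianReal (μ := 0) (v := 1) (p : NNReal))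
  have h' : MemLp (id : ℝ → ℝ) (p : ENNReal) (gaussianReal 0 1) := by exact_mod_cast h
  simpa using h'.integrable_norm_pow hp

theorem int_sq : Integrable (fun t : ℝ => t ^ 2) (gaussianReal 0 1) := by
  simpa [sq_abs] using int_pow 2 (by norm_num)

theorem int_four : Integrable (fun t : ℝ => t ^ 4) (gaussianReal 0 1) := by
  refine (int_pow 4 (by norm_num)).congr (Eventually.of_forall fun t => ?_)
  change |t| ^ 4 = t ^ 4
  rw [show (4 : ℕ) = 2 * 2 by rfl, pow_mul, pow_mul, sq_abs]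

theorem mean_sq : ∫ t, t ^ 2 ∂(gaussianReal 0 1) = 1 := by
  have h1 : Var[fun x : ℝ => x; gaussianReal 0 1] = ((1 : NNReal) : ℝ) :=
    variance_fun_id_gaussianReal
  have h2 : MemLp (fun x : ℝ => x) 2 (gaussianReal 0 1) := by
    exact_mod_cast memLp_id_gaussianReal (μ := 0) (v := 1) 2
  rw [variance_eq_sub h2, integral_id_gaussianReal] at h1
  simpa using h1

theorem tl_nonneg (M x : ℝ) : 0 ≤ tl M x := by
  unfold tl; split_ifs; exacts [le_rfl, sq_nonneg x]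

theorem tl_le (M x : ℝ) : tl M x ≤ x ^ 2 := by
  unfold tl; split_ifs; exacts [sq_nonneg x, le_rfl]

theorem tl_meas (M : ℝ) : Measurable (tl M) := by
  unfold tl
  exact Measurable.ite (measurableSet_le (by fun_prop) (by fun_prop)) measurable_const (by fun_prop)

theorem memLp_of_le {f : ℝ → ℝ} (hf : Measurable f) (h0 : ∀ t, 0 ≤ f t) (h1 : ∀ t, f t ≤ t ^ 2) :
    MemLp f 2 (gaussianReal 0 1) := by
  rw [memLp_two_iff_integrable_sq hf.aestronglyMeasurable]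
  refine int_four.mono' (hf.pow_const 2).aestronglyMeasurable (Eventually.of_forall fun t => ?_)
  rw [Real.norm_of_nonneg (sq_nonneg _)]
  calc f t ^ 2 ≤ (t ^ 2) ^ 2 := pow_le_pow_left₀ (h0 t) (h1 t) 2
    _ = t ^ 4 := by ring

theorem tl_tendsto : Tendsto (fun M : ℝ => ∫ t, tl M t ∂(gaussianReal 0 1)) atTop (𝓝 0) := by
  have h := tendsto_integral_filter_of_dominated_convergence (μ := gaussianReal 0 1)
    (l := (atTop : Filter ℝ)) (F := tl) (f := fun _ => (0 : ℝ)) (fun t => t ^ 2)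
    (Eventually.of_forall fun M => (tl_meas M).aestronglyMeasurable)
    (Eventually.of_forall fun M => Eventually.of_forall fun t => by
      rw [Real.norm_of_nonneg (tl_nonneg M t)]; exact tl_le M t) int_sq
    (Eventually.of_forall fun t => by
      refine tendsto_const_nhds.congr' ?_
      filter_upwards [eventually_ge_atTop |t|] with M hM
      unfold tl
      rw [if_pos hM])
  simpa using h

/-! ### The deterministic part -/

theorem det {n : ℕ} (hn : 1 ≤ n) (x : E n) (g w : Fin n → ℝ) (σ : Equiv.Perm (Fin n)) {δ : ℝ}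
    (hδ : 0 < δ) (h1 : ∑ i, (x i - g (σ i)) ^ 2 ≤ (δ / 8) ^ 2 * n)
    (h2 : ∑ i, (w i - g i) ^ 2 ≤ (δ / 8) ^ 2 * n) (h3 : (n : ℝ) / 2 ≤ ∑ i, x i ^ 2) (hw : w ≠ 0) :
    ∃ y ∈ orb w, ‖x - ‖x‖ • y‖ < δ * ‖x‖ := by
  obtain ⟨G, hG⟩ : ∃ G : E n, G = WithLp.toLp 2 fun i => g (σ i) := ⟨_, rfl⟩
  obtain ⟨W, hW⟩ : ∃ W : E n, W = WithLp.toLp 2 fun i => w (σ i) := ⟨_, rfl⟩
  obtain ⟨W0, hW0⟩ : ∃ W0 : E n, W0 = WithLp.toLp 2 w := ⟨_, rfl⟩
  have hn0 : (0 : ℝ) < n := by exact_mod_cast hn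
  have hsn : √(n : ℝ) ^ 2 = n := Real.sq_sqrt hn0.le
  have hsn0 : 0 < √(n : ℝ) := Real.sqrt_pos.2 hn0
  have a1 : ‖x - G‖ ≤ δ / 8 * √(n : ℝ) := by
    rw [← pow_le_pow_iff_left₀ (norm_nonneg _) (by positivity) (two_ne_zero), mul_pow, hsn,
      EuclideanSpace.real_norm_sq_eq]
    refine le_trans (le_of_eq ?_) h1
    refine Finset.sum_congr rfl fun i _ => ?_
    rw [hG]
    rfl
  have a2 : ‖W - G‖ ≤ δ / 8 * √(n : ℝ) := by
    rw [← pow_le_pow_iff_left₀ (norm_nonneg _) (by positivity) (two_ne_zero), mul_pow, hsn,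
      EuclideanSpace.real_norm_sq_eq]
    refine le_trans (le_of_eq ?_) h2
    rw [← Equiv.sum_comp σ (fun i => (w i - g i) ^ 2)]
    refine Finset.sum_congr rfl fun i _ => ?_
    rw [hG, hW]
    rfl
  have a3 : ‖W‖ = ‖W0‖ := by
    have : ‖W‖ ^ 2 = ‖W0‖ ^ 2 := by
      rw [EuclideanSpace.real_norm_sq_eq, EuclideanSpace.real_norm_sq_eq, hW, hW0]
      exact Equiv.sum_comp σ (fun i => w i ^ 2)
    rw [← abs_of_nonneg (norm_nonneg W), ← abs_of_nonneg (norm_nonneg W0)]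
    exact (sq_eq_sq_iff_abs_eq_abs _ _).1 this
  have a4 : ‖W0‖ ≠ 0 := by
    intro h0
    rw [norm_eq_zero] at h0
    apply hw
    rw [hW0] at h0
    funext i
    have := congrArg (fun z : E n => z i) h0
    simpa using this
  have hW0p : 0 < ‖W0‖ := lt_of_le_of_ne (norm_nonneg _) (Ne.symm a4)
  refine ⟨‖W0‖⁻¹ • W, ⟨σ, by rw [hW0, hW]⟩, ?_⟩
  have a5 : ‖x - W‖ ≤ δ / 4 * √(n : ℝ) := by
    have h4 : x - W = (x - G) - (W - G) := by abel
    rw [h4]
    refine (norm_sub_le _ _).trans ?_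
    linarith
  have a6 : ‖W - ‖x‖ • (‖W0‖⁻¹ • W)‖ ≤ ‖x - W‖ := by
    have h4 : W - ‖x‖ • (‖W0‖⁻¹ • W) = ((‖W‖ - ‖x‖) * ‖W0‖⁻¹) • W := by
      rw [sub_mul, sub_smul, a3, mul_inv_cancel₀ a4, one_smul, smul_smul]
    rw [h4, norm_smul, norm_mul, norm_inv, norm_norm, a3, mul_assoc, inv_mul_cancel₀ a4, mul_one,
      Real.norm_eq_abs, ← a3, abs_sub_comm]
    exact abs_norm_sub_norm_le x W
  have a7 : √(n : ℝ) / 2 < ‖x‖ := by
    rw [← pow_lt_pow_iff_left₀ (by positivity) (norm_nonneg _) (two_ne_zero), div_pow, hsn,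
      EuclideanSpace.real_norm_sq_eq]
    linarith
  calc ‖x - ‖x‖ • (‖W0‖⁻¹ • W)‖ = ‖(x - W) + (W - ‖x‖ • (‖W0‖⁻¹ • W))‖ := by
        congr 1; abel
    _ ≤ ‖x - W‖ + ‖W - ‖x‖ • (‖W0‖⁻¹ • W)‖ := norm_add_le _ _
    _ ≤ δ / 4 * √(n : ℝ) + δ / 4 * √(n : ℝ) := add_le_add a5 (a6.trans a5)
    _ = δ * (√(n : ℝ) / 2) := by ring
    _ < δ * ‖x‖ := mul_lt_mul_of_pos_left a7 hδ

theorem cnt_eq {n : ℕ} (x : Fin n → ℝ) (t : ℝ) :
    ∑ i, (Set.Iic t).indicator (fun _ => (1 : ℝ)) (x i) = cnt x t := by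
  unfold cnt
  rw [Finset.card_filter]
  push_cast
  refine Finset.sum_congr rfl fun i _ => ?_
  rw [Set.indicator_apply]
  rfl

theorem perm : S_PERM := by
  classical
  intro hLLN hMATCH hCLOSE hTAIL g hg δ₀ hδ₀
  obtain ⟨δ, hδd⟩ : ∃ δ, δ = min δ₀ 1 := ⟨_, rfl⟩
  have hδ : 0 < δ := by rw [hδd]; positivity
  have hδ1 : δ ≤ 1 := by rw [hδd]; exact min_le_right _ _
  have hδδ : δ ≤ δ₀ := by rw [hδd]; exact min_le_left _ _
  obtain ⟨ρ, hρ⟩ : ∃ ρ, ρ = (δ / 8) ^ 2 / 10 := ⟨_, rfl⟩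
  have hρ0 : 0 < ρ := by rw [hρ]; positivity
  obtain ⟨M₀, hM₀, hT⟩ := hTAIL g hg ρ hρ0
  obtain ⟨M, hM1, hM2⟩ : ∃ M : ℝ, M₀ ≤ M ∧ ∫ t, tl M t ∂(gaussianReal 0 1) ≤ ρ / 2 := by
    have h1 : ∀ᶠ M : ℝ in atTop, ∫ t, tl M t ∂(gaussianReal 0 1) < ρ / 2 :=
      (tendsto_order.1 tl_tendsto).2 _ (by positivity)
    obtain ⟨M, h2, h3⟩ := (h1.and (eventually_ge_atTop M₀)).exists
    exact ⟨M, h3, h2.le⟩
  have hM0 : 0 < M := lt_of_lt_of_le hM₀ hM1
  obtain ⟨T, κ, hκ, hclose⟩ := hCLOSE hMATCH ρ M hρ0 hM0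
  refine ⟨(δ / 8) ^ 2, by positivity, ?_⟩
  -- the events
  have e1 : ∀ t : ℝ, Tendsto (fun n : ℕ => (stdGaussian (E n)).real
      {x | κ * n < |cnt (fun i => x i) t - n * Phi t|}) atTop (𝓝 0) := by
    intro t
    have h1 := hLLN ((Set.Iic t).indicator (fun _ => (1 : ℝ)))
      (measurable_const.indicator measurableSet_Iic)
      (memLp_indicator_const 2 measurableSet_Iic 1 (Or.inr (measure_ne_top _ _))) κ hκ
    have h2 : ∫ s, (Set.Iic t).indicator (fun _ => (1 : ℝ)) s ∂(gaussianReal 0 1) = Phi t := by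
      rw [integral_indicator_const _ measurableSet_Iic, smul_eq_mul, mul_one]
      rfl
    rw [h2] at h1
    refine h1.congr fun n => ?_
    congr 1
    ext x
    simp only [Set.mem_setOf_eq]
    rw [cnt_eq (fun i => x i) t]
  have e2 := hLLN (tl M) (tl_meas M) (memLp_of_le (tl_meas M) (tl_nonneg M) (tl_le M)) (ρ / 2)
    (by positivity)
  have e3 := hLLN (fun t => t ^ 2) (by fun_prop) (memLp_of_le (by fun_prop) (fun t => sq_nonneg t)
    (fun t => le_rfl)) (1 / 2) (by norm_num)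
  rw [mean_sq] at e3
  have e4 := ((tendsto_finset_sum T fun t _ => e1 t).add e2).add e3
  rw [Finset.sum_const_zero, add_zero, add_zero] at e4
  have e5 := (tendsto_order.1 e4).2 (1 / 2) (by norm_num)
  -- the scores
  have f1 : ∀ᶠ n : ℕ in atTop, ∀ t ∈ T, |cnt (g n) t - n * Phi t| ≤ κ * n := by
    rw [Filter.eventually_all_finset]
    intro t _
    have h1 := (Metric.tendsto_nhds.1 (hg.cdf t)) κ hκ
    filter_upwards [h1, eventually_ge_atTop 1] with n h2 hn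
    have hn0 : (0 : ℝ) < n := by exact_mod_cast hn
    rw [Real.dist_eq] at h2
    have h3 : cnt (g n) t - n * Phi t = (cnt (g n) t / n - Phi t) * n := by
      field_simp
    rw [h3, abs_mul, abs_of_pos hn0]
    exact mul_le_mul_of_nonneg_right h2.le hn0.le
  have f2 := hT M hM1
  have f3 : ∀ᶠ n : ℕ in atTop, (1 / 2 : ℝ) < (∑ i, g n i ^ 2) / n :=
    (tendsto_order.1 hg.sq).1 _ (by norm_num)
  filter_upwards [e5, f1, f2, f3, eventually_ge_atTop 1] with n e5 f1 f2 f3 hn w hw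
  have hn0 : (0 : ℝ) < n := by exact_mod_cast hn
  have hw0 : w ≠ 0 := by
    rintro rfl
    rw [lt_div_iff₀ hn0] at f3
    have h1 : ∑ i, ((0 : Fin n → ℝ) i - g n i) ^ 2 = ∑ i, g n i ^ 2 :=
      Finset.sum_congr rfl fun i _ => by rw [Pi.zero_apply, zero_sub, neg_sq]
    rw [h1] at hw
    have h2 : (δ / 8) ^ 2 ≤ 1 / 2 := by nlinarith
    have h3 : (δ / 8) ^ 2 * n ≤ 1 / 2 * n := mul_le_mul_of_nonneg_right h2 hn0.le
    linarith
  refine ⟨hw0, ?_⟩
  obtain ⟨B, hB⟩ : ∃ B : Set (E n), B =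
    ((⋃ t ∈ T, {x : E n | κ * n < |cnt (fun i => x i) t - n * Phi t|}) ∪
    {x : E n | ρ / 2 * n < |∑ i, tl M (x i) - n * ∫ t, tl M t ∂(gaussianReal 0 1)|}) ∪
    {x : E n | 1 / 2 * (n : ℝ) < |∑ i, x i ^ 2 - (n : ℝ) * 1|} := ⟨_, rfl⟩
  have hBle : (stdGaussian (E n)).real B ≤ 1 / 2 := by
    refine le_trans ?_ e5.le
    rw [hB]
    refine (measureReal_union_le _ _).trans (add_le_add_left ?_ _)
    refine (measureReal_union_le _ _).trans (add_le_add_left ?_ _)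
    exact measureReal_biUnion_finset_le _ _
  have hBc : 1 / 2 ≤ (stdGaussian (E n)).real Bᶜ := by
    have h1 : (stdGaussian (E n)).real (B ∪ Bᶜ) ≤ _ := measureReal_union_le B Bᶜ
    rw [Set.union_compl_self, probReal_univ] at h1
    linarith
  refine hBc.trans (measureReal_mono ?_ (measure_ne_top _ _))
  intro x hx
  rw [hB] at hx
  simp only [Set.mem_compl_iff, Set.mem_union, Set.mem_iUnion, Set.mem_setOf_eq, not_or, not_exists,
    not_lt] at hx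
  obtain ⟨⟨hx1, hx2⟩, hx3⟩ := hx
  have g1 : ∀ t ∈ T, |cnt (fun i => x i) t - n * Phi t| ≤ κ * n := fun t ht => hx1 t ht
  have g2 : ∑ i, tl M (x i) ≤ ρ * n := by
    have h1 := (abs_le.1 hx2).2
    have h2 : (n : ℝ) * ∫ t, tl M t ∂(gaussianReal 0 1) ≤ n * (ρ / 2) :=
      mul_le_mul_of_nonneg_left hM2 hn0.le
    linarith
  have g3 : (n : ℝ) / 2 ≤ ∑ i, x i ^ 2 := by
    have h1 := (abs_le.1 hx3).1
    linarith
  obtain ⟨σ, hσ⟩ := hclose n (fun i => x i) (g n) g1 f1 g2 f2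
  have h10 : 10 * ρ * n = (δ / 8) ^ 2 * n := by rw [hρ]; ring
  rw [h10] at hσ
  obtain ⟨y, hy, hxy⟩ := det hn x (g n) w σ hδ hσ hw g3 hw0
  exact ⟨y, hy, hxy.trans_le (mul_le_mul_of_nonneg_right hδδ (norm_nonneg _))⟩

end Pool.Agent.P8H55.PK
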